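import Pool.Agent.Helper76_Strip.Dom

/-!
# Module AREA: the lattice rectangle approximates the rectangle
-/

namespace Pool.Agent.Helper76_Strip

open Finset MeasureTheory Filter Topology Pool.Agent.Helper38_Strip

theorem rect_meas (l w : ℝ) : MeasurableSet (rect l w) := by
  have c1 : Continuous fun z : ℝ × ℝ => (z.1 + z.2) / √2 := by fun_prop
  have c2 : Continuous fun z : ℝ × ℝ => (z.2 - z.1) / √2 := by fun_prop
  have h : IsClosed (rect l w) := by
    unfold rect
    exact (isClosed_le continuous_const c1).inter ((isClosed_le c1 continuous_const).inter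
      ((isClosed_le continuous_const c2).inter (isClosed_le c2 continuous_const)))
  exact h.measurableSet

theorem box_meas (δ : ℝ) (i j : ℤ) : MeasurableSet (box δ i j) := by
  have h : box δ i j = Set.Ico (i * δ) ((i + 1) * δ) ×ˢ Set.Ico (j * δ) ((j + 1) * δ) := by
    ext z
    simp only [Helper38_Strip.box, Set.mem_ofPred_eq, Set.mem_prod, Set.mem_Ico]
    tauto
  rw [h]
  exact measurableSet_Ico.prod measurableSet_Ico

theorem UN_meas (δ : ℝ) (T N : ℕ) : MeasurableSet (UN δ T N) := by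
  have h : UN δ T N = ⋃ t ∈ Set.Iio T, ⋃ m ∈ Set.Iic N, if (t + m) % 2 = 0 then
      box δ (ix T N t m) (iy t m) else ∅ := by
    ext z
    simp only [UN, Set.mem_ofPred_eq, Set.mem_iUnion, Set.mem_Iio, Set.mem_Iic]
    constructor
    · rintro ⟨t, ht, m, hm, h1, h2⟩
      exact ⟨t, ht, m, hm, by rw [if_pos h1]; exact h2⟩
    · rintro ⟨t, ht, m, hm, h1⟩
      split_ifs at h1 with h2
      · exact ⟨t, ht, m, hm, h2, h1⟩
      · exact absurd h1 (Set.notMem_empty _)
  rw [h]
  refine MeasurableSet.biUnion (Set.to_countable _) fun t _ =>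
    MeasurableSet.biUnion (Set.to_countable _) fun m _ => ?_
  split_ifs
  · exact box_meas _ _ _
  · exact MeasurableSet.empty

theorem line_null (a c : ℝ) : volume {z : ℝ × ℝ | z.2 + a * z.1 = c} = 0 := by
  have hm : MeasurableSet {z : ℝ × ℝ | z.2 + a * z.1 = c} :=
    measurableSet_eq_fun (by fun_prop) measurable_const
  rw [Measure.volume_eq_prod, Measure.measure_prod_null hm]
  refine Eventually.of_forall fun x => ?_
  have h : Prod.mk x ⁻¹' {z : ℝ × ℝ | z.2 + a * z.1 = c} = {c - a * x} := by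
    ext y
    simp only [Set.mem_preimage, Set.mem_ofPred_eq, Set.mem_singleton_iff]
    constructor <;> intro h <;> linarith
  show volume (Prod.mk x ⁻¹' {z : ℝ × ℝ | z.2 + a * z.1 = c}) = 0
  rw [h]
  simp

theorem mem_box_floor {δ : ℝ} (hδ : 0 < δ) (z : ℝ × ℝ) : z ∈ box δ ⌊z.1 / δ⌋ ⌊z.2 / δ⌋ := by
  refine ⟨?_, ?_, ?_, ?_⟩
  · rw [← le_div_iff₀ hδ]; exact Int.floor_le _
  · rw [← div_lt_iff₀ hδ]; exact Int.lt_floor_add_one _
  · rw [← le_div_iff₀ hδ]; exact Int.floor_le _
  · rw [← div_lt_iff₀ hδ]; exact Int.lt_floor_add_one _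

/-- description of `UN` by the integer parts -/
theorem mem_UN {δ : ℝ} (hδ : 0 < δ) {T N : ℕ} {z : ℝ × ℝ} {i j : ℤ} (hz : z ∈ box δ i j) :
    z ∈ UN δ T N ↔ 0 ≤ i + j ∧ i + j < T ∧ 0 ≤ j - i ∧ j - i ≤ N := by
  constructor
  · rintro ⟨t, ht, m, hm, h1, h2⟩
    obtain ⟨e1, e2⟩ := ix_even (T := T) (N := N) h1
    obtain ⟨h3, h4⟩ := box_unique hδ hz h2
    omega
  · rintro ⟨h1, h2, h3, h4⟩
    have e : ((i + j).toNat + (j - i).toNat) % 2 = 0 := by omega
    refine ⟨(i + j).toNat, by omega, (j - i).toNat, by omega, e, ?_⟩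
    obtain ⟨e1, e2⟩ := ix_even (T := T) (N := N) e
    have h5 : ix T N (i + j).toNat (j - i).toNat = i := by omega
    have h6 : iy (i + j).toNat (j - i).toNat = j := by omega
    rw [h5, h6]
    exact hz

theorem UN_subset_big {l w : ℝ} (hl : 0 < l) (hw : 0 < w) {N : ℕ} (hN : 1 ≤ N) :
    UN (del w N) (TN l w N) N ⊆ big l w := by
  rintro z ⟨t, ht, m, hm, h1, h2⟩
  exact box_subset_big hl hw hN ht hm h1 h2

theorem big_meas (l w : ℝ) : MeasurableSet (big l w) := by
  have c1 : Continuous fun z : ℝ × ℝ => |z.1| := by fun_prop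
  have c2 : Continuous fun z : ℝ × ℝ => |z.2| := by fun_prop
  have h : IsClosed (big l w) := by
    unfold big
    exact (isClosed_le c1 continuous_const).inter (isClosed_le c2 continuous_const)
  exact h.measurableSet

theorem big_fin (l w : ℝ) : volume (big l w) < ⊤ := by
  have h : big l w ⊆ Set.Icc (-(6 * (l + w)), -(6 * (l + w))) (6 * (l + w), 6 * (l + w)) := by
    rintro z ⟨h1, h2⟩
    have h1' := abs_le.1 h1
    have h2' := abs_le.1 h2
    exact ⟨⟨h1'.1, h2'.1⟩, ⟨h1'.2, h2'.2⟩⟩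
  exact (measure_mono h).trans_lt isCompact_Icc.measure_lt_top

/-- the symmetric difference is contained in four thin strips -/
theorem symm_strips {l w : ℝ} (hl : 0 < l) (hw : 0 < w) {N : ℕ} (hN : 1 ≤ N) {z : ℝ × ℝ}
    (hz : z ∈ (rect l w \ UN (del w N) (TN l w N) N) ∪ (UN (del w N) (TN l w N) N \ rect l w)) :
    |z.1 + z.2| ≤ 3 * del w N ∨ |z.1 + z.2 - √2 * l| ≤ 3 * del w N ∨
      |z.2 - z.1| ≤ 3 * del w N ∨ |z.2 - z.1 - √2 * w| ≤ 3 * del w N := by
  have hN' : (0 : ℝ) < N := by exact_mod_cast hN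
  have hδ : 0 < del w N := by unfold del; positivity
  have hNδ : N * del w N = √2 * w := by unfold del; field_simp
  have hT1 := TN_le hl hw N
  have hT2 := le_TN hl hw hN
  set δ := del w N
  set T := TN l w N
  have hs : 0 < √2 := by positivity
  have hb := mem_box_floor hδ z
  set i := ⌊z.1 / δ⌋
  set j := ⌊z.2 / δ⌋
  have hb' := hb
  obtain ⟨b1, b2, b3, b4⟩ := hb'
  have hsum : (i + j : ℝ) * δ ≤ z.1 + z.2 ∧ z.1 + z.2 < (i + j + 2) * δ := by
    constructor <;> nlinarith
  have hdif : (j - i - 1 : ℝ) * δ < z.2 - z.1 ∧ z.2 - z.1 < (j - i + 1) * δ := by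
    constructor <;> nlinarith
  have hrect : z ∈ rect l w ↔ 0 ≤ z.1 + z.2 ∧ z.1 + z.2 ≤ √2 * l ∧ 0 ≤ z.2 - z.1 ∧
      z.2 - z.1 ≤ √2 * w := by
    unfold rect
    simp only [Set.mem_ofPred_eq]
    rw [le_div_iff₀ hs, div_le_iff₀ hs, le_div_iff₀ hs, div_le_iff₀ hs, zero_mul, mul_comm l,
      mul_comm w]
  rcases hz with ⟨h1, h2⟩ | ⟨h1, h2⟩
  · rw [hrect] at h1
    rw [mem_UN hδ hb] at h2
    obtain ⟨r1, r2, r3, r4⟩ := h1
    -- the second coordinate condition holds automatically
    have k1 : 0 ≤ j - i := by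
      have : (0 : ℝ) < (j - i + 1) * δ := by linarith
      have h3 : (0 : ℝ) < (j : ℝ) - i + 1 := pos_of_mul_pos_left this hδ.le
      have h4 : (0 : ℤ) < j - i + 1 := by exact_mod_cast h3
      omega
    have k2 : j - i ≤ N := by
      have h3 : ((j : ℝ) - i - 1) * δ < N * δ := by linarith
      have h4 : (j : ℝ) - i - 1 < N := lt_of_mul_lt_mul_right h3 hδ.le
      have h5 : j - i - 1 < N := by exact_mod_cast h4
      omega
    by_cases k3 : 0 ≤ i + j
    · have k4 : (T : ℤ) ≤ i + j := by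
        by_contra hc
        push Not at hc
        exact h2 ⟨k3, hc, k1, k2⟩
      have h3 : (T : ℝ) ≤ i + j := by exact_mod_cast k4
      have h4 : (T : ℝ) * δ ≤ (i + j) * δ := by gcongr
      right; left
      rw [abs_le]
      constructor <;> linarith [hsum.1]
    · have h3 : i + j + 2 ≤ 1 := by omega
      have h4 : (i : ℝ) + j + 2 ≤ 1 := by exact_mod_cast h3
      have h5 : ((i : ℝ) + j + 2) * δ ≤ 1 * δ := by gcongr
      left
      rw [abs_le]
      constructor <;> linarith [hsum.2]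
  · rw [mem_UN hδ hb] at h1
    obtain ⟨r1, r2, r3, r4⟩ := h1
    have s1 : (0 : ℝ) ≤ i + j := by exact_mod_cast r1
    have s2 : (i : ℝ) + j + 1 ≤ T := by
      have : i + j + 1 ≤ (T : ℤ) := by omega
      exact_mod_cast this
    have s3 : (0 : ℝ) ≤ j - i := by exact_mod_cast r3
    have s4 : (j : ℝ) - i ≤ N := by exact_mod_cast r4
    have q1 : 0 ≤ z.1 + z.2 := by
      have : 0 ≤ ((i : ℝ) + j) * δ := by positivity
      linarith [hsum.1]
    have q2 : z.1 + z.2 ≤ √2 * l + 3 * δ := by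
      have : ((i : ℝ) + j + 1) * δ ≤ T * δ := by gcongr
      have h5 : ((i : ℝ) + j + 2) * δ = ((i : ℝ) + j + 1) * δ + δ := by ring
      linarith [hsum.2]
    have q3 : -δ ≤ z.2 - z.1 := by
      have : 0 ≤ ((j : ℝ) - i) * δ := by positivity
      have h5 : ((j : ℝ) - i - 1) * δ = ((j : ℝ) - i) * δ - δ := by ring
      linarith [hdif.1]
    have q4 : z.2 - z.1 ≤ √2 * w + δ := by
      have : ((j : ℝ) - i) * δ ≤ N * δ := by gcongr
      have h5 : ((j : ℝ) - i + 1) * δ = ((j : ℝ) - i) * δ + δ := by ring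
      linarith [hdif.2]
    rw [hrect] at h2
    by_cases c1 : z.1 + z.2 ≤ √2 * l
    · by_cases c2 : 0 ≤ z.2 - z.1
      · have c3 : √2 * w < z.2 - z.1 := by
          by_contra hc
          push Not at hc
          exact h2 ⟨q1, c1, c2, hc⟩
        right; right; right
        rw [abs_le]
        constructor <;> linarith
      · push Not at c2
        right; right; left
        rw [abs_le]
        constructor <;> linarith
    · push Not at c1
      right; left
      rw [abs_le]
      constructor <;> linarith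

theorem del_tendsto (w : ℝ) : Tendsto (fun N : ℕ => 3 * del w N) atTop (𝓝 0) := by
  have h : Tendsto (fun N : ℕ => 3 * (√2 * w / (N : ℝ))) atTop (𝓝 (3 * 0)) :=
    (tendsto_const_div_atTop_nhds_zero_nat (√2 * w)).const_mul 3
  rw [mul_zero] at h
  exact h

theorem area : AreaStatement := by
  intro l w hl hw
  refine ⟨rect_meas l w, fun N => UN_meas _ _ _, ?_⟩
  have key := tendsto_measure_of_ae_tendsto_indicator (μ := (volume : Measure (ℝ × ℝ)))
    (L := (atTop : Filter ℕ)) (A := (∅ : Set (ℝ × ℝ)))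
    (As := fun N => (rect l w \ UN (del w N) (TN l w N) N) ∪
      (UN (del w N) (TN l w N) N \ rect l w)) MeasurableSet.empty
    (fun N => ((rect_meas l w).diff (UN_meas _ _ _)).union ((UN_meas _ _ _).diff (rect_meas l w)))
    (big_meas l w) (big_fin l w).ne ?_ ?_
  · rw [measure_empty] at key
    exact key
  · filter_upwards [eventually_ge_atTop 1] with N hN
    refine Set.union_subset ?_ ?_
    · exact Set.sdiff_subset.trans (rect_subset_big hl hw)
    · exact Set.sdiff_subset.trans (UN_subset_big hl hw hN)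
  · have n1 : ∀ᵐ z : ℝ × ℝ, z.2 + 1 * z.1 ≠ 0 := by
      rw [ae_iff]; simpa using line_null 1 0
    have n2 : ∀ᵐ z : ℝ × ℝ, z.2 + 1 * z.1 ≠ √2 * l := by
      rw [ae_iff]; simpa using line_null 1 (√2 * l)
    have n3 : ∀ᵐ z : ℝ × ℝ, z.2 + (-1) * z.1 ≠ 0 := by
      rw [ae_iff]; simpa using line_null (-1) 0
    have n4 : ∀ᵐ z : ℝ × ℝ, z.2 + (-1) * z.1 ≠ √2 * w := by
      rw [ae_iff]; simpa using line_null (-1) (√2 * w)
    filter_upwards [n1, n2, n3, n4] with z h1 h2 h3 h4
    have p1 : 0 < |z.1 + z.2| := abs_pos.2 fun h => h1 (by linarith)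
    have p2 : 0 < |z.1 + z.2 - √2 * l| := abs_pos.2 fun h => h2 (by linarith)
    have p3 : 0 < |z.2 - z.1| := abs_pos.2 fun h => h3 (by linarith)
    have p4 : 0 < |z.2 - z.1 - √2 * w| := abs_pos.2 fun h => h4 (by linarith)
    filter_upwards [eventually_ge_atTop 1, (del_tendsto w).eventually (gt_mem_nhds p1),
      (del_tendsto w).eventually (gt_mem_nhds p2), (del_tendsto w).eventually (gt_mem_nhds p3),
      (del_tendsto w).eventually (gt_mem_nhds p4)] with N hN e1 e2 e3 e4
    constructor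
    · intro hz
      rcases symm_strips hl hw hN hz with h | h | h | h <;> linarith
    · intro hz
      exact absurd hz (Set.notMem_empty _)

end Pool.Agent.Helper76_Strip
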