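import Pool.Agent.Helper38_Strip.Statements

/-!
# Module COUNTMOM: moments of the number of points in a bounded region
-/

namespace Pool.Agent.Helper76_Strip

open Finset MeasureTheory Filter Topology Pool.Agent.Helper38_Strip

theorem summ (v : ℝ) (hv : 0 ≤ v) :
    Summable fun k : ℕ => (k : ℝ) ^ 2 * (Real.exp (-v) * v ^ k / (k.factorial : ℝ)) := by
  have h1 : Summable fun k : ℕ => Real.exp (-v) * ((4 * v) ^ k / (k.factorial : ℝ)) :=
    (Real.summable_pow_div_factorial (4 * v)).mul_left _
  refine Summable.of_nonneg_of_le (fun k => by positivity) (fun k => ?_) h1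
  have h2 : (k : ℝ) ^ 2 ≤ 4 ^ k := by
    have h3 : (k : ℝ) ≤ 2 ^ k := by exact_mod_cast Nat.lt_two_pow_self.le
    calc (k : ℝ) ^ 2 ≤ (2 ^ k) ^ 2 := by gcongr
      _ = 4 ^ k := by rw [← pow_mul, mul_comm, pow_mul]; norm_num
  calc (k : ℝ) ^ 2 * (Real.exp (-v) * v ^ k / (k.factorial : ℝ))
      ≤ 4 ^ k * (Real.exp (-v) * v ^ k / (k.factorial : ℝ)) := by gcongr
    _ = Real.exp (-v) * ((4 * v) ^ k / (k.factorial : ℝ)) := by rw [mul_pow]; ring

theorem law_one {Ω : Type*} [MeasurableSpace Ω] {P : Measure Ω} {S : Ω → Set (ℝ × ℝ)}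
    (hS : IsPoissonProcess P S) {B : Set (ℝ × ℝ)} (hB : MeasurableSet B) (hfin : volume B < ⊤)
    (k : ℕ) : P {ω | (S ω ∩ B).encard = k} =
      ENNReal.ofReal (Real.exp (-(volume B).toReal) * (volume B).toReal ^ k / k.factorial) := by
  have h := hS.law 1 (fun _ => B) (fun _ => hB) (fun _ => hfin)
    (fun i j hij => absurd (Subsingleton.elim i j) hij) (fun _ => k)
  rw [Set.iInter_const, Fin.prod_univ_one] at h
  exact h

theorem countMom : CountMomStatement := by
  intro Ω _ P _ S hS B hB hfin
  set v := (volume B).toReal with hv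
  have hv0 : 0 ≤ v := ENNReal.toReal_nonneg
  have hlaw := law_one hS hB hfin
  have hmeas := hS.meas B hB
  -- total mass
  have hsum : ∑' k : ℕ, P {ω | (S ω ∩ B).encard = k} = 1 := by
    simp_rw [hlaw]
    rw [← ENNReal.ofReal_tsum_of_nonneg (fun k => by positivity)]
    · have h1 : ∑' k : ℕ, Real.exp (-v) * v ^ k / (k.factorial : ℝ) = 1 := by
        have h2 : ∀ k : ℕ, Real.exp (-v) * v ^ k / (k.factorial : ℝ) =
            Real.exp (-v) * (v ^ k / (k.factorial : ℝ)) := fun k => by ring
        simp_rw [h2]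
        rw [tsum_mul_left]
        have h3 : ∑' k : ℕ, v ^ k / (k.factorial : ℝ) = Real.exp v := by
          rw [Real.exp_eq_exp_ℝ, NormedSpace.exp_eq_tsum_div]
        rw [h3, ← Real.exp_add]
        simp
      rw [h1]
      simp
    · have h2 : ∀ k : ℕ, Real.exp (-v) * v ^ k / (k.factorial : ℝ) =
            Real.exp (-v) * (v ^ k / (k.factorial : ℝ)) := fun k => by ring
      exact ((Real.summable_pow_div_factorial v).mul_left _).congr fun k => (h2 k).symm
  have hdisj : Pairwise (Function.onFun Disjoint fun k : ℕ => {ω | (S ω ∩ B).encard = (k : ℕ∞)}) := by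
    intro i j hij
    rw [Function.onFun, Set.disjoint_left]
    intro ω h1 h2
    apply hij
    have h3 : (i : ℕ∞) = j := h1.symm.trans h2
    exact_mod_cast h3
  have hU : P (⋃ k : ℕ, {ω | (S ω ∩ B).encard = k}) = 1 := by
    rw [measure_iUnion hdisj hmeas, hsum]
  have hUm : MeasurableSet (⋃ k : ℕ, {ω | (S ω ∩ B).encard = k}) := MeasurableSet.iUnion hmeas
  have hfinite : ∀ᵐ ω ∂P, (S ω ∩ B).Finite := by
    have h1 : ∀ᵐ ω ∂P, ω ∈ ⋃ k : ℕ, {ω | (S ω ∩ B).encard = k} :=
      (mem_ae_iff_prob_eq_one hUm).2 hU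
    filter_upwards [h1] with ω hω
    obtain ⟨k, hk⟩ := Set.mem_iUnion.1 hω
    have hk' : (S ω ∩ B).encard = k := hk
    refine Set.encard_lt_top_iff.1 ?_
    rw [hk']
    exact ENat.natCast_lt_top k
  refine ⟨hfinite, ?_⟩
  -- measurability of the count
  have hN : Measurable fun ω => (S ω ∩ B).ncard := by
    refine measurable_to_countable' fun k => ?_
    have h1 : (fun ω => (S ω ∩ B).ncard) ⁻¹' {k} = {ω | (S ω ∩ B).encard = k} ∪
        (if k = 0 then (⋃ j : ℕ, {ω | (S ω ∩ B).encard = j})ᶜ else ∅) := by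
      ext ω
      simp only [Set.mem_preimage, Set.mem_singleton_iff, Set.mem_union, Set.mem_ofPred_eq]
      by_cases hf : (S ω ∩ B).Finite
      · have h2 : (S ω ∩ B).encard = ((S ω ∩ B).ncard : ℕ∞) := (hf.cast_ncard_eq).symm
        constructor
        · intro h
          left
          rw [h2, h]
        · rintro (h | h)
          · rw [h2] at h
            exact_mod_cast h
          · split_ifs at h with hk
            · exfalso
              exact h (Set.mem_iUnion.2 ⟨_, h2⟩)
            · exact absurd h (Set.notMem_empty _)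
      · have hinf : (S ω ∩ B).Infinite := hf
        rw [hinf.ncard, hinf.encard_eq]
        constructor
        · rintro rfl
          right
          rw [if_pos rfl]
          simp [hinf.encard_eq]
        · rintro (h | h)
          · exact absurd h.symm (ENat.natCast_ne_top k)
          · split_ifs at h with hk
            · exact hk.symm
            · exact absurd h (Set.notMem_empty _)
    rw [h1]
    refine (hmeas k).union ?_
    split_ifs
    · exact hUm.compl
    · exact MeasurableSet.empty
  have hNr : Measurable fun ω => ((S ω ∩ B).ncard : ℝ) := measurable_from_nat.comp hN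
  rw [memLp_two_iff_integrable_sq hNr.aestronglyMeasurable]
  refine ⟨(hNr.pow_const 2).aestronglyMeasurable, ?_⟩
  have h1 : ∫⁻ ω, ‖((S ω ∩ B).ncard : ℝ) ^ 2‖ₑ ∂P =
      ∫⁻ k, ENNReal.ofReal ((k : ℝ) ^ 2) ∂(P.map fun ω => (S ω ∩ B).ncard) := by
    rw [lintegral_map (measurable_of_countable _) hN]
    refine lintegral_congr fun ω => ?_
    rw [Real.enorm_eq_ofReal (by positivity)]
  have h2 : ∀ k : ℕ, k ≠ 0 → (P.map fun ω => (S ω ∩ B).ncard) {k} =
      ENNReal.ofReal (Real.exp (-v) * v ^ k / k.factorial) := by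
    intro k hk
    rw [Measure.map_apply hN (measurableSet_singleton k), ← hlaw k]
    congr 1
    ext ω
    simp only [Set.mem_preimage, Set.mem_singleton_iff, Set.mem_ofPred_eq]
    by_cases hf : (S ω ∩ B).Finite
    · have h2 : (S ω ∩ B).encard = ((S ω ∩ B).ncard : ℕ∞) := (hf.cast_ncard_eq).symm
      rw [h2]
      exact_mod_cast Iff.rfl
    · have hinf : (S ω ∩ B).Infinite := hf
      rw [hinf.ncard, hinf.encard_eq]
      constructor
      · intro h
        exact absurd h.symm hk
      · intro h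
        exact absurd h.symm (ENat.natCast_ne_top k)
  rw [HasFiniteIntegral, h1, lintegral_countable']
  have h3 : ∀ k : ℕ, ENNReal.ofReal ((k : ℝ) ^ 2) * (P.map fun ω => (S ω ∩ B).ncard) {k} =
      ENNReal.ofReal ((k : ℝ) ^ 2 * (Real.exp (-v) * v ^ k / (k.factorial : ℝ))) := by
    intro k
    rcases Nat.eq_zero_or_pos k with rfl | hk
    · simp
    · rw [h2 k hk.ne', ENNReal.ofReal_mul (by positivity)]
  simp_rw [h3]
  rw [← ENNReal.ofReal_tsum_of_nonneg (fun k => by positivity) (summ v hv0)]
  exact ENNReal.ofReal_lt_top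

end Pool.Agent.Helper76_Strip
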