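import Pool.Agent.Helper38_Strip.Statements

/-!
# Module DERR: the one-period variance up to an error of order `x ^ 2`
-/

namespace Pool.Agent.Helper76_Strip

open Finset MeasureTheory Filter Topology Pool.Agent.Helper38_Strip

/-! ### Rows -/

theorem rowP_cons {N : ℕ} (p : ℝ) (b : Bool) (o : Fin N → Bool) :
    rowP p (Fin.cons b o : Row N) = (if b = true then p else 1 - p) *
      ∏ m, if o m = true then p else 1 - p := by
  unfold rowP
  rw [Fin.prod_univ_succ]
  simp only [Fin.cons_zero, Fin.cons_succ]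

theorem rE_cons {N : ℕ} (p : ℝ) (F : Row N → ℝ) :
    rE p F = ∑ o : Fin N → Bool, (∏ m, if o m = true then p else 1 - p) *
      (p * F (Fin.cons true o) + (1 - p) * F (Fin.cons false o)) := by
  unfold rE
  rw [← (Fin.consEquiv (fun _ : Fin (N + 1) => Bool)).sum_comp, Fintype.sum_prod_type,
    Fintype.sum_bool, ← Finset.sum_add_distrib]
  refine Finset.sum_congr rfl fun o _ => ?_
  show rowP p (Fin.cons true o : Row N) * F (Fin.cons true o) +
    rowP p (Fin.cons false o : Row N) * F (Fin.cons false o) = _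
  rw [rowP_cons, rowP_cons]
  simp only [if_true, Bool.false_eq_true, if_false]
  ring

theorem rowP_nonneg {N : ℕ} {p : ℝ} (h0 : 0 ≤ p) (h1 : p ≤ 1) (o : Row N) : 0 ≤ rowP p o :=
  Finset.prod_nonneg fun m _ => by split_ifs <;> linarith

theorem prod_sum_one {N : ℕ} (p : ℝ) :
    ∑ o : Fin N → Bool, (∏ m, if o m = true then p else 1 - p) = 1 := by
  have h := (Finset.prod_univ_sum (fun _ : Fin N => (Finset.univ : Finset Bool))
    (fun (_ : Fin N) (b : Bool) => if b = true then p else 1 - p)).symm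
  rw [Fintype.piFinset_univ] at h
  rw [h]
  simp

theorem rowP_sum {N : ℕ} (p : ℝ) : ∑ o : Row N, rowP p o = 1 := prod_sum_one p

theorem rE_add {N : ℕ} (p : ℝ) (F G : Row N → ℝ) :
    rE p (fun o => F o + G o) = rE p F + rE p G := by
  unfold rE
  rw [← Finset.sum_add_distrib]
  exact Finset.sum_congr rfl fun o _ => by ring

theorem rE_const {N : ℕ} (p c : ℝ) : rE (N := N) p (fun _ => c) = c := by
  unfold rE
  rw [← Finset.sum_mul, rowP_sum, one_mul]

theorem rE_mono {N : ℕ} {p : ℝ} (h0 : 0 ≤ p) (h1 : p ≤ 1) {F G : Row N → ℝ} (h : ∀ o, F o ≤ G o) :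
    rE p F ≤ rE p G :=
  Finset.sum_le_sum fun o _ => mul_le_mul_of_nonneg_left (h o) (rowP_nonneg h0 h1 o)

theorem rE_nonneg {N : ℕ} {p : ℝ} (h0 : 0 ≤ p) (h1 : p ≤ 1) {F : Row N → ℝ} (h : ∀ o, 0 ≤ F o) :
    0 ≤ rE p F := by
  have := rE_mono h0 h1 h
  rwa [rE_const] at this

/-! ### The maximum -/

theorem ht_zero {N : ℕ} (t : ℕ) (c : Conf N) : ht t c 0 = 0 := by
  unfold ht
  simp

theorem mx_nonneg (N : ℕ) {f : ℕ → ℤ} (h : f 0 = 0) : 0 ≤ mx N f := by
  unfold mx
  rw [← h]
  exact Finset.le_sup' f (by simp)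

theorem mx_le_add (N : ℕ) {f g : ℕ → ℤ} (k : ℤ) (h : ∀ m, f m ≤ g m + k) : mx N f ≤ mx N g + k := by
  unfold mx
  refine Finset.sup'_le _ _ fun m hm => ?_
  have h1 := Finset.le_sup' g hm
  have h2 := h m
  linarith

theorem Psi_nonneg {x : ℝ} (hb : BasicStatement) (hx : 0 < x) {N : ℕ} (t : ℕ) (c : Conf N) :
    0 ≤ Psi x t c := by
  unfold Psi
  refine Finset.sum_nonneg fun g _ => mul_nonneg ((hb x hx N (t + 1)).2.1 g) ?_
  have : 0 ≤ mx N fun m => ht t c m + ht (t + 1) g m := mx_nonneg N (by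
    simp only [ht_zero, add_zero])
  exact_mod_cast this

theorem sg_add_two (t i : ℕ) : sg (t + 2) i = sg t i := by
  unfold sg
  have : (t + 2 + i) % 2 = (t + i) % 2 := by omega
  rw [this]

theorem ht_add_two {N : ℕ} (t : ℕ) (c : Conf N) (m : ℕ) : ht (t + 2) c m = ht t c m := by
  unfold ht
  simp only [sg_add_two]

theorem sE_Psi (hb : BasicStatement) {x : ℝ} (hx : 0 < x) (N : ℕ) :
    (sE x 1 fun c : Conf N => Psi x 1 c) = sE x 0 fun c : Conf N => Psi x 0 c := by
  unfold sE Psi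
  simp only [Finset.mul_sum]
  rw [Finset.sum_comm]
  refine Finset.sum_congr rfl fun c _ => Finset.sum_congr rfl fun g _ => ?_
  rw [(hb x hx N 0).2.2.2.1 c]
  simp only [ht_add_two, Nat.zero_add, Nat.reduceAdd]
  have h : (fun m => ht 1 g m + ht 0 c m) = fun m => ht 0 c m + ht 1 g m := by
    funext m
    ring
  rw [h]
  ring

theorem sE_add {N : ℕ} (x : ℝ) (t : ℕ) (F G : Conf N → ℝ) :
    sE x t (fun c => F c + G c) = sE x t F + sE x t G := by
  unfold sE
  rw [← Finset.sum_add_distrib]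
  exact Finset.sum_congr rfl fun o _ => by ring

theorem sE_mul {N : ℕ} (x : ℝ) (t : ℕ) (a : ℝ) (F : Conf N → ℝ) :
    sE x t (fun c => a * F c) = a * sE x t F := by
  unfold sE
  rw [Finset.mul_sum]
  exact Finset.sum_congr rfl fun o _ => by ring

theorem sE_mono (hb : BasicStatement) {x : ℝ} (hx : 0 < x) {N : ℕ} (t : ℕ) {F G : Conf N → ℝ}
    (h : ∀ c, F c ≤ G c) : sE x t F ≤ sE x t G :=
  Finset.sum_le_sum fun c _ => mul_le_mul_of_nonneg_left (h c) ((hb x hx N t).2.1 c)

theorem sE_const (hb : BasicStatement) {x : ℝ} (hx : 0 < x) {N : ℕ} (t : ℕ) (a : ℝ) :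
    sE x t (fun _ : Conf N => a) = a := by
  unfold sE
  rw [← Finset.sum_mul, (hb x hx N t).2.2.1, one_mul]

/-! ### Flipping the first variable -/

theorem rb_cons_zero {N : ℕ} (b : Bool) (o : Fin N → Bool) : rb (Fin.cons b o : Row N) 0 = b := by
  unfold rb
  simp

theorem rb_cons_succ {N : ℕ} (b b' : Bool) (o : Fin N → Bool) (m : ℕ) :
    rb (Fin.cons b o : Row N) (m + 1) = rb (Fin.cons b' o : Row N) (m + 1) := by
  unfold rb
  by_cases h : m + 1 < N + 1
  · rw [dif_pos h, dif_pos h]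
    have h1 : (⟨m + 1, h⟩ : Fin (N + 1)) = Fin.succ ⟨m, by omega⟩ := rfl
    rw [h1, Fin.cons_succ, Fin.cons_succ]
  · rw [dif_neg h, dif_neg h]

theorem upd_succ {N : ℕ} (c : Conf (N + 1)) (o : Fin (N + 1) → Bool) (i : Fin N) :
    upd 0 c (Fin.cons true o : Row (N + 1)) i.succ = upd 0 c (Fin.cons false o : Row (N + 1)) i.succ := by
  unfold upd
  have h1 : ((i.succ : Fin (N + 1)) : ℕ) = (i : ℕ) + 1 := rfl
  rw [h1]
  rw [rb_cons_succ true false o (i : ℕ), rb_cons_succ true false o ((i : ℕ) + 1)]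

theorem upd_zero {N : ℕ} (c : Conf (N + 1)) (h : c 0 = false) (b : Bool) (o : Fin (N + 1) → Bool) :
    upd 0 c (Fin.cons b o : Row (N + 1)) 0 = b := by
  unfold upd
  have h1 : ((0 : Fin (N + 1)) : ℕ) = 0 := rfl
  rw [h1, rb_cons_zero, h]
  simp

theorem ht_upd_le {N : ℕ} (c : Conf (N + 1)) (h : c 0 = false) (o : Fin (N + 1) → Bool) (m : ℕ) :
    ht 1 (upd 0 c (Fin.cons true o : Row (N + 1))) m ≤
      ht 1 (upd 0 c (Fin.cons false o : Row (N + 1))) m := by
  unfold ht
  rw [Fin.sum_univ_succ, Fin.sum_univ_succ]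
  have h1 : (∑ i : Fin N, if ((i.succ : Fin (N + 1)) : ℕ) < m ∧
      upd 0 c (Fin.cons true o : Row (N + 1)) i.succ = true then sg 1 (i.succ : Fin (N + 1)) else 0) =
      ∑ i : Fin N, if ((i.succ : Fin (N + 1)) : ℕ) < m ∧
      upd 0 c (Fin.cons false o : Row (N + 1)) i.succ = true then sg 1 (i.succ : Fin (N + 1)) else 0 :=
    Finset.sum_congr rfl fun i _ => by rw [upd_succ]
  rw [h1, upd_zero c h, upd_zero c h]
  have h2 : sg 1 ((0 : Fin (N + 1)) : ℕ) = -1 := by
    unfold sg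
    simp
  rw [h2]
  simp only [Bool.false_eq_true, and_false, if_false, and_true]
  split_ifs <;> linarith

theorem Psi_flip (hb : BasicStatement) {x : ℝ} (hx : 0 < x) {N : ℕ} (c : Conf (N + 1))
    (h : c 0 = false) (o : Fin (N + 1) → Bool) :
    Psi x 1 (upd 0 c (Fin.cons true o : Row (N + 1))) ≤
      Psi x 1 (upd 0 c (Fin.cons false o : Row (N + 1))) := by
  unfold Psi
  refine Finset.sum_le_sum fun g _ => mul_le_mul_of_nonneg_left ?_ ((hb x hx _ _).2.1 g)
  have h1 := mx_le_add (N + 1) (f := fun m => ht 1 (upd 0 c (Fin.cons true o : Row (N + 1))) m +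
    ht (1 + 1) g m) (g := fun m => ht 1 (upd 0 c (Fin.cons false o : Row (N + 1))) m +
    ht (1 + 1) g m) 0 (fun m => by
      have := ht_upd_le c h o m
      show ht 1 (upd 0 c (Fin.cons true o : Row (N + 1))) m + ht (1 + 1) g m ≤
        (ht 1 (upd 0 c (Fin.cons false o : Row (N + 1))) m + ht (1 + 1) g m) + 0
      linarith)
  rw [add_zero] at h1
  exact_mod_cast h1

theorem cur_cons {N : ℕ} (c : Conf (N + 1)) (h : c 0 = false) (b : Bool) (o : Fin (N + 1) → Bool) :
    cur 0 c (Fin.cons b o : Row (N + 1)) = if b = true then 1 else 0 := by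
  unfold cur
  rw [rb_cons_zero]
  have : cb c 0 = false := by
    unfold cb
    simp [h]
  rw [this]
  simp

theorem cur_true {N : ℕ} (c : Conf (N + 1)) (h : c 0 = true) (o : Row (N + 1)) :
    cur 0 c o = 1 := by
  unfold cur
  have : cb c 0 = true := by
    unfold cb
    simp [h]
  rw [this]
  simp

/-- on the event that the first step is empty -/
theorem err_bound (hb : BasicStatement) (hq : PeqStatement) {x : ℝ} (hx : 0 < x)
    (hx2 : x ^ 2 ≤ 1 / 2) {N : ℕ} (c : Conf (N + 1)) (h : c 0 = false) :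
    0 ≤ rE (x ^ 2) (fun o => (cur 0 c o : ℝ) * Psi x 1 (upd 0 c o)) ∧
    rE (x ^ 2) (fun o => (cur 0 c o : ℝ) * Psi x 1 (upd 0 c o)) ≤
      2 * x ^ 2 * (Psi x 0 c + vv x (N + 1) 0) := by
  have hx1 : x < 1 := by nlinarith
  have hp0 : 0 ≤ x ^ 2 := by positivity
  have hp1 : x ^ 2 ≤ 1 := by linarith
  have hpeq := hq x hx hx1 (N + 1) 0 (by omega) c
  constructor
  · refine rE_nonneg hp0 hp1 fun o => mul_nonneg ?_ (Psi_nonneg hb hx 1 _)
    have : 0 ≤ cur 0 c o := by
      unfold cur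
      split_ifs <;> norm_num
    exact_mod_cast this
  · rw [← hpeq, rE_cons, rE_cons, Finset.mul_sum]
    refine Finset.sum_le_sum fun o _ => ?_
    set W : ℝ := ∏ m, if o m = true then x ^ 2 else 1 - x ^ 2 with hW
    have hW0 : 0 ≤ W := Finset.prod_nonneg fun m _ => by split_ifs <;> linarith
    rw [cur_cons c h, cur_cons c h]
    simp only [if_true, Bool.false_eq_true, if_false, Int.cast_one, Int.cast_zero, one_mul,
      zero_mul, mul_zero, add_zero, zero_add]
    have h1 := Psi_flip hb hx c h o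
    have h2 := Psi_nonneg hb hx 1 (upd 0 c (Fin.cons true o : Row (N + 1)))
    set A := Psi x 1 (upd 0 c (Fin.cons true o : Row (N + 1)))
    set B := Psi x 1 (upd 0 c (Fin.cons false o : Row (N + 1)))
    have h3 : x ^ 2 * A ≤ 2 * x ^ 2 * (x ^ 2 * (1 + A) + (1 - x ^ 2) * B) := by
      have h4 : A ≤ 2 * (x ^ 2 * (1 + A) + (1 - x ^ 2) * B) := by
        have h5 : (1 - x ^ 2) * A ≤ (1 - x ^ 2) * B := by gcongr
        nlinarith [mul_nonneg hp0 h2]
      calc x ^ 2 * A ≤ x ^ 2 * (2 * (x ^ 2 * (1 + A) + (1 - x ^ 2) * B)) := by gcongr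
        _ = _ := by ring
    calc W * (x ^ 2 * A) ≤ W * (2 * x ^ 2 * (x ^ 2 * (1 + A) + (1 - x ^ 2) * B)) := by gcongr
      _ = 2 * x ^ 2 * (W * (x ^ 2 * (1 + A) + (1 - x ^ 2) * B)) := by ring

theorem numeric {p M π v err E1 : ℝ} (hp0 : 0 ≤ p) (hp1 : p ≤ 1) (hM0 : 0 ≤ M) (hπ0 : 0 ≤ π)
    (hπ1 : π ≤ 1) (hv1 : v = p + (1 - p) * π) (herr0 : 0 ≤ err) (herr1 : err ≤ 2 * p * (M + v)) :
    |v - v ^ 2 + 2 * (E1 + (v - 1) * π + err - v * M) - (2 * E1 - π - 2 * π * M)| ≤
      10 * (p + π ^ 2) * (1 + M) := by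
  have hdiff : v - v ^ 2 + 2 * ((E1 + (v - 1) * π + err) - v * M) - (2 * E1 - π - 2 * π * M) =
      (v - π) + (π ^ 2 - (v - π) ^ 2) + 2 * err - 2 * ((v - π) * M) := by ring
  have hvπ : v - π = p * (1 - π) := by rw [hv1]; ring
  have hv1' : v ≤ 1 := by
    have : 0 ≤ (1 - p) * (1 - π) := mul_nonneg (by linarith) (by linarith)
    have e : 1 - v = (1 - p) * (1 - π) := by rw [hv1]; ring
    linarith
  have hdpos : 0 ≤ v - π := by rw [hvπ]; exact mul_nonneg hp0 (by linarith)
  have hdle : v - π ≤ p := by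
    have : 0 ≤ p * π := mul_nonneg hp0 hπ0
    rw [hvπ]
    linarith
  have e2 : (v - π) ^ 2 ≤ p := by
    calc (v - π) ^ 2 = (v - π) * (v - π) := sq _
      _ ≤ (v - π) * 1 := by
        refine mul_le_mul_of_nonneg_left ?_ hdpos
        linarith
      _ ≤ p := by linarith
  have e3 : (v - π) * M ≤ p * M := by gcongr
  have e4 : 0 ≤ (v - π) * M := mul_nonneg hdpos hM0
  have e5 : p * (M + v) ≤ p * M + p := by
    have : p * v ≤ p * 1 := by gcongr
    linarith
  have e6 : 0 ≤ π ^ 2 * M := by positivity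
  have e7 : 0 ≤ p * M := by positivity
  have e8 : 0 ≤ π ^ 2 := by positivity
  have hR : 10 * (p + π ^ 2) * (1 + M) =
      10 * p + 10 * π ^ 2 + 10 * (p * M) + 10 * (π ^ 2 * M) := by ring
  have e9 : 2 * err ≤ 4 * (p * (M + v)) := by linarith
  have e12 : 0 ≤ (v - π) ^ 2 := sq_nonneg _
  rw [hR, hdiff, abs_le]
  constructor <;> linarith

theorem dErr (hb : BasicStatement) (hq : PeqStatement) : DErrStatement := by
  intro x hx hx2 N
  have hx1 : x < 1 := by nlinarith
  have hp0 : 0 ≤ x ^ 2 := by positivity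
  have hp1 : x ^ 2 ≤ 1 := by linarith
  set M := sE x 0 fun c : Conf (N + 1) => Psi x 0 c with hM
  set E1 := sE x 0 fun c : Conf (N + 1) => Psi x 0 c * if c 0 = true then 1 else 0 with hE1
  set π := sE x 0 fun c : Conf (N + 1) => if c 0 = true then (1 : ℝ) else 0 with hπ
  set v := vv x (N + 1) 0 with hv
  have hM0 : 0 ≤ M := by
    have := sE_mono hb hx (N := N + 1) 0 (F := fun _ => (0 : ℝ)) (G := fun c => Psi x 0 c)
      fun c => Psi_nonneg hb hx 0 c
    rwa [sE_const hb hx] at this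
  have hπ0 : 0 ≤ π := by
    have := sE_mono hb hx (N := N + 1) 0 (F := fun _ => (0 : ℝ))
      (G := fun c => if c 0 = true then (1 : ℝ) else 0) fun c => by split_ifs <;> norm_num
    rwa [sE_const hb hx] at this
  have hπ1 : π ≤ 1 := by
    have := sE_mono hb hx (N := N + 1) 0 (F := fun c => if c 0 = true then (1 : ℝ) else 0)
      (G := fun _ => (1 : ℝ)) fun c => by split_ifs <;> norm_num
    rwa [sE_const hb hx] at this
  -- the mean current
  have hcur : ∀ c : Conf (N + 1), rE (x ^ 2) (fun o => (cur 0 c o : ℝ)) =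
      x ^ 2 + (1 - x ^ 2) * if c 0 = true then 1 else 0 := by
    intro c
    rcases Bool.eq_false_or_eq_true (c 0) with h | h
    · simp only [cur_true c h, h, if_true, Int.cast_one]
      rw [rE_const]
      ring
    · rw [rE_cons]
      simp only [cur_cons c h, if_true, Bool.false_eq_true, if_false, Int.cast_one, Int.cast_zero,
        mul_one, mul_zero, add_zero, h]
      rw [← Finset.sum_mul, prod_sum_one, one_mul]
  have hv1 : v = x ^ 2 + (1 - x ^ 2) * π := by
    rw [hv]
    unfold vv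
    simp only [hcur]
    rw [sE_add, sE_mul, sE_const hb hx]
  have hsq : (sE x 0 fun c : Conf (N + 1) => rE (x ^ 2) fun o => (cur 0 c o : ℝ) ^ 2) = v := by
    rw [hv]
    unfold vv
    have : ∀ (c : Conf (N + 1)) (o : Row (N + 1)), (cur 0 c o : ℝ) ^ 2 = (cur 0 c o : ℝ) := by
      intro c o
      unfold cur
      split_ifs <;> simp
    simp only [this]
  -- the mixed term
  set err := (sE x 0 fun c : Conf (N + 1) =>
    if c 0 = true then 0 else rE (x ^ 2) fun o => (cur 0 c o : ℝ) * Psi x 1 (upd 0 c o)) with herr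
  have hmix : (sE x 0 fun c : Conf (N + 1) =>
      rE (x ^ 2) fun o => (cur 0 c o : ℝ) * Psi x 1 (upd 0 c o)) = E1 + (v - 1) * π + err := by
    have h1 : ∀ c : Conf (N + 1), rE (x ^ 2) (fun o => (cur 0 c o : ℝ) * Psi x 1 (upd 0 c o)) =
        ((Psi x 0 c * if c 0 = true then 1 else 0) + (v - 1) * if c 0 = true then 1 else 0) +
        if c 0 = true then 0 else rE (x ^ 2) fun o => (cur 0 c o : ℝ) * Psi x 1 (upd 0 c o) := by
      intro c
      rcases Bool.eq_false_or_eq_true (c 0) with h | h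
      · have h2 := hq x hx hx1 (N + 1) 0 (by omega) c
        simp only [cur_true c h, Int.cast_one, zero_add] at h2 ⊢
        rw [rE_add, rE_const] at h2
        simp only [h, if_true, mul_one, one_mul, add_zero]
        linarith
      · simp only [h, Bool.false_eq_true, if_false, mul_zero, add_zero, zero_add]
    have h3 : (sE x 0 fun c : Conf (N + 1) =>
        rE (x ^ 2) fun o => (cur 0 c o : ℝ) * Psi x 1 (upd 0 c o)) = sE x 0 fun c : Conf (N + 1) =>
        ((Psi x 0 c * if c 0 = true then 1 else 0) + (v - 1) * if c 0 = true then 1 else 0) +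
        if c 0 = true then 0 else rE (x ^ 2) fun o => (cur 0 c o : ℝ) * Psi x 1 (upd 0 c o) := by
      congr 1
      funext c
      exact h1 c
    rw [h3, sE_add, sE_add, sE_mul]
  have herr0 : 0 ≤ err := by
    have := sE_mono hb hx (N := N + 1) 0 (F := fun _ => (0 : ℝ))
      (G := fun c => if c 0 = true then 0 else
        rE (x ^ 2) fun o => (cur 0 c o : ℝ) * Psi x 1 (upd 0 c o)) fun c => by
        rcases Bool.eq_false_or_eq_true (c 0) with h | h
        · simp only [h, if_true, le_refl]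
        · simp only [h, Bool.false_eq_true, if_false]
          exact (err_bound hb hq hx hx2 c h).1
    rwa [sE_const hb hx] at this
  have hvn : 0 ≤ v := by
    rw [hv1]
    have := mul_nonneg (sub_nonneg.2 hp1) hπ0
    linarith
  have herr1 : err ≤ 2 * x ^ 2 * (M + v) := by
    have := sE_mono hb hx (N := N + 1) 0
      (F := fun c => if c 0 = true then 0 else
        rE (x ^ 2) fun o => (cur 0 c o : ℝ) * Psi x 1 (upd 0 c o))
      (G := fun c => 2 * x ^ 2 * (Psi x 0 c + v)) fun c => by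
        rcases Bool.eq_false_or_eq_true (c 0) with h | h
        · simp only [h, if_true]
          have := Psi_nonneg hb hx 0 c
          positivity
        · simp only [h, Bool.false_eq_true, if_false]
          exact (err_bound hb hq hx hx2 c h).2
    rw [sE_mul, sE_add, sE_const hb hx] at this
    exact this
  have hDD : DD x (N + 1) = v - v ^ 2 + 2 * ((E1 + (v - 1) * π + err) - v * M) := by
    unfold DD
    rw [hsq, hmix, sE_Psi hb hx]
  rw [hDD]
  exact numeric hp0 hp1 hM0 hπ0 hπ1 hv1 herr0 herr1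

end Pool.Agent.Helper76_Strip
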