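import Pool.Agent.Helper38_Strip.Statements

/-!
# Module DOM: deterministic bounds
-/

namespace Pool.Agent.Helper76_Strip

open Finset MeasureTheory Filter Topology Pool.Agent.Helper38_Strip

theorem sqrt_two_le : √2 ≤ 3 / 2 := by
  rw [Real.sqrt_le_left (by norm_num)]
  norm_num

theorem rect_subset_big {l w : ℝ} (hl : 0 < l) (hw : 0 < w) : rect l w ⊆ big l w := by
  rintro z ⟨h1, h2, h3, h4⟩
  have hs : 0 < √2 := by positivity
  have hs2 := sqrt_two_le
  rw [le_div_iff₀ hs, zero_mul] at h1 h3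
  rw [div_le_iff₀ hs] at h2 h4
  have e2 : z.1 + z.2 ≤ l * (3 / 2) := h2.trans (by gcongr)
  have e4 : z.2 - z.1 ≤ w * (3 / 2) := h4.trans (by gcongr)
  refine ⟨abs_le.2 ⟨by linarith, by linarith⟩, abs_le.2 ⟨by linarith, by linarith⟩⟩

/-- bounds for the number of time steps -/
theorem TN_le {l w : ℝ} (hl : 0 < l) (hw : 0 < w) (N : ℕ) :
    (TN l w N : ℝ) * del w N ≤ √2 * l + 2 * del w N := by
  unfold TN del
  rcases Nat.eq_zero_or_pos N with rfl | hN
  · simp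
    positivity
  · have hN' : (0 : ℝ) < N := by exact_mod_cast hN
    have h1 : (⌈l * N / (2 * w)⌉₊ : ℝ) < l * N / (2 * w) + 1 := Nat.ceil_lt_add_one (by positivity)
    have h2 : ((2 * ⌈l * N / (2 * w)⌉₊ : ℕ) : ℝ) ≤ l * N / w + 2 := by
      push_cast
      have h3 : l * N / w = 2 * (l * N / (2 * w)) := by field_simp
      linarith
    calc ((2 * ⌈l * N / (2 * w)⌉₊ : ℕ) : ℝ) * (√2 * w / N)
        ≤ (l * N / w + 2) * (√2 * w / N) := by gcongr
      _ = √2 * l + 2 * (√2 * w / N) := by field_simp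

theorem le_TN {l w : ℝ} (hl : 0 < l) (hw : 0 < w) {N : ℕ} (hN : 1 ≤ N) :
    √2 * l ≤ (TN l w N : ℝ) * del w N := by
  unfold TN del
  have hN' : (0 : ℝ) < N := by exact_mod_cast hN
  have h1 : l * N / (2 * w) ≤ (⌈l * N / (2 * w)⌉₊ : ℝ) := Nat.le_ceil _
  have h2 : l * N / w ≤ ((2 * ⌈l * N / (2 * w)⌉₊ : ℕ) : ℝ) := by
    push_cast
    have h3 : l * N / w = 2 * (l * N / (2 * w)) := by field_simp
    linarith
  calc √2 * l = (l * N / w) * (√2 * w / N) := by field_simp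
    _ ≤ ((2 * ⌈l * N / (2 * w)⌉₊ : ℕ) : ℝ) * (√2 * w / N) := by gcongr

/-- indices of the box of an even site -/
theorem ix_even {T N t m : ℕ} (h : (t + m) % 2 = 0) :
    2 * ix T N t m = (t : ℤ) - m ∧ 2 * iy t m = (t : ℤ) + m := by
  unfold ix iy
  rw [if_pos h]
  constructor <;> omega

theorem box_subset_big {l w : ℝ} (hl : 0 < l) (hw : 0 < w) {N : ℕ} (hN : 1 ≤ N) {t m : ℕ}
    (ht : t < TN l w N) (hm : m ≤ N) (h : (t + m) % 2 = 0) :
    box (del w N) (ix (TN l w N) N t m) (iy t m) ⊆ big l w := by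
  rintro z ⟨h1, h2, h3, h4⟩
  obtain ⟨e1, e2⟩ := ix_even (T := TN l w N) (N := N) h
  have e1' : 2 * ((ix (TN l w N) N t m : ℤ) : ℝ) = (t : ℝ) - m := by exact_mod_cast e1
  have e2' : 2 * ((iy t m : ℤ) : ℝ) = (t : ℝ) + m := by exact_mod_cast e2
  set i : ℝ := ((ix (TN l w N) N t m : ℤ) : ℝ)
  set j : ℝ := ((iy t m : ℤ) : ℝ)
  set δ := del w N with hδ
  have hN' : (0 : ℝ) < N := by exact_mod_cast hN
  have hN1 : (1 : ℝ) ≤ N := by exact_mod_cast hN
  have hδ0 : 0 < δ := by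
    rw [hδ]; unfold del; positivity
  have hNδ : N * δ = √2 * w := by
    rw [hδ]; unfold del; field_simp
  have hs2 := sqrt_two_le
  have ht' : (t : ℝ) ≤ TN l w N := by exact_mod_cast ht.le
  have hm' : (m : ℝ) ≤ N := by exact_mod_cast hm
  have hT := TN_le hl hw N
  rw [← hδ] at hT
  have hδw : δ ≤ √2 * w := by
    rw [← hNδ]
    nlinarith
  have a1 : √2 * w ≤ 3 / 2 * w := by gcongr
  have a2 : √2 * l ≤ 3 / 2 * l := by gcongr
  have b1 : (t : ℝ) * δ ≤ √2 * l + 2 * δ := (mul_le_mul_of_nonneg_right ht' hδ0.le).trans hT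
  have b2 : (m : ℝ) * δ ≤ √2 * w := by
    rw [← hNδ]
    gcongr
  have b3 : 0 ≤ (t : ℝ) * δ := by positivity
  have b4 : 0 ≤ (m : ℝ) * δ := by positivity
  have c1 : 2 * (i * δ) = t * δ - m * δ := by linear_combination δ * e1'
  have c2 : 2 * (j * δ) = t * δ + m * δ := by linear_combination δ * e2'
  have c3 : (i + 1) * δ = i * δ + δ := by ring
  have c4 : (j + 1) * δ = j * δ + δ := by ring
  rw [c3] at h2
  rw [c4] at h4
  refine ⟨abs_le.2 ⟨by linarith, by linarith⟩, abs_le.2 ⟨by linarith, by linarith⟩⟩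

theorem box_unique {δ : ℝ} (hδ : 0 < δ) {i j i' j' : ℤ} {z : ℝ × ℝ} (h : z ∈ box δ i j)
    (h' : z ∈ box δ i' j') : i = i' ∧ j = j' := by
  obtain ⟨h1, h2, h3, h4⟩ := h
  obtain ⟨k1, k2, k3, k4⟩ := h'
  have key : ∀ {a b : ℤ} {x : ℝ}, a * δ ≤ x → x < (b + 1) * δ → a ≤ b := by
    intro a b x ha hb
    have h5 : (a : ℝ) * δ < (b + 1) * δ := ha.trans_lt hb
    have h6 : (a : ℝ) < b + 1 := lt_of_mul_lt_mul_right h5 hδ.le
    have h7 : a < b + 1 := by exact_mod_cast h6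
    omega
  exact ⟨le_antisymm (key h1 k2) (key k1 h2), le_antisymm (key h3 k4) (key k3 h4)⟩

theorem dom (hP : PathChainStatement) (hL : LppChainStatement) : DomStatement := by
  intro S l w N hl hw hN hfin
  have hsub : S ∩ rect l w ⊆ S ∩ big l w := Set.inter_subset_inter_right _ (rect_subset_big hl hw)
  have hδ : 0 < del w N := by
    unfold del
    have : (0 : ℝ) < N := by exact_mod_cast hN
    positivity
  refine ⟨?_, ?_⟩
  · obtain ⟨⟨A, hA, -, hc⟩, -⟩ := hP S l w hl hw (hfin.subset hsub)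
    rw [← hc, ← Set.ncard_coe_finset]
    exact Set.ncard_le_ncard (hA.trans hsub) hfin
  · obtain ⟨⟨A, hA, hc⟩, -⟩ := hL N (TN l w N) hN (envS (del w N) (TN l w N) N S)
    rw [← hc]
    refine ⟨Int.natCast_nonneg _, ?_⟩
    have hpt : ∀ a ∈ A, ∃ z, z ∈ S ∧ z ∈ box (del w N) (ix (TN l w N) N a.1 a.2) (iy a.1 a.2) := by
      intro a ha
      have h1 := (hA.1 a ha).2
      unfold envS at h1
      simp only [decide_eq_true_eq] at h1
      obtain ⟨z, hz1, hz2⟩ := h1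
      exact ⟨z, hz1, hz2⟩
    choose! f hf using hpt
    have hmaps : ∀ a ∈ A, f a ∈ hfin.toFinset := by
      intro a ha
      rw [Set.Finite.mem_toFinset]
      exact ⟨(hf a ha).1, box_subset_big hl hw hN a.1.2 (Nat.lt_succ_iff.1 a.2.2) (hA.1 a ha).1
        (hf a ha).2⟩
    have hinj : Set.InjOn f A := by
      intro a ha b hb hab
      have h1 := (hf a ha).2
      rw [hab] at h1
      obtain ⟨h2, h3⟩ := box_unique hδ h1 (hf b hb).2
      obtain ⟨e1, e2⟩ := ix_even (T := TN l w N) (N := N) (hA.1 a ha).1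
      obtain ⟨e3, e4⟩ := ix_even (T := TN l w N) (N := N) (hA.1 b hb).1
      refine Prod.ext (Fin.ext ?_) (Fin.ext ?_) <;> omega
    have h5 := Finset.card_le_card_of_injOn f hmaps hinj
    rw [← Set.ncard_eq_toFinset_card _ hfin] at h5
    exact_mod_cast h5

end Pool.Agent.Helper76_Strip
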